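import Pool.Agent.Lib.MP_af3a4a_an.P1.CHK.DATA.N25.K0
import Pool.Agent.Lib.MP_af3a4a_an.P1.CHK.DATA.N25.K1
import Pool.Agent.Lib.MP_af3a4a_an.P1.CHK.DATA.N25.K2

/-! glue for 25 <= N <= 25 (generated) -/

set_option autoImplicit false
set_option maxRecDepth 100000

namespace Pool.Agent.Lib.MP_af3a4a_an.P1.CHK.DATA.N25

open BOX

theorem g0 : ChunkP 25 25 512 1024 64 96 0 2484 := ChunkP.g k2 k3
theorem g1 : ChunkP 25 25 512 1024 64 101 0 2484 := ChunkP.g g0 k4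
theorem g2 : ChunkP 25 25 512 1024 0 101 0 2484 := ChunkP.g k1 g1
theorem g3 : ChunkP 25 25 0 1024 0 101 0 2484 := ChunkP.r k0 g2
theorem g4 : ChunkP 25 25 1024 1536 64 96 0 2484 := ChunkP.g k6 k7
theorem g5 : ChunkP 25 25 1024 1536 64 101 0 2484 := ChunkP.g g4 k8
theorem g6 : ChunkP 25 25 1024 1536 0 101 0 2484 := ChunkP.g k5 g5
theorem g7 : ChunkP 25 25 1536 2048 0 101 0 2484 := ChunkP.g k9 k10
theorem g8 : ChunkP 25 25 1024 2048 0 101 0 2484 := ChunkP.r g6 g7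
theorem g9 : ChunkP 25 25 0 2048 0 101 0 2484 := ChunkP.r g3 g8
theorem g10 : ChunkP 25 25 2048 3072 0 101 0 2484 := ChunkP.r k11 k12
theorem g11 : ChunkP 25 25 2048 4096 0 101 0 2484 := ChunkP.r g10 k13
theorem g12 : ChunkP 25 25 0 4096 0 101 0 2484 := ChunkP.r g9 g11

/-- the whole box -/
theorem allBox : ChunkP 25 25 0 4096 0 101 0 2484 := g12

theorem full {N : ℕ} (hNa : 25 ≤ N) (hNb : N ≤ 25) {z w : Fin N → ℂ} {R : ℝ} {σ : Fin N → ℂ}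
    (hC : Pool.Agent.Lib.MP_af3a4a_an.P1.H80.Cfg2 N z w R σ) : ((2484 : ℕ) : ℝ) / 1024 < R := ChunkP.full allBox hNa hNb hC

end Pool.Agent.Lib.MP_af3a4a_an.P1.CHK.DATA.N25
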